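import Pool.Agent.Y772.DK.Main

/-!
# Sums over the primes: the contribution of the prime powers
-/

set_option autoImplicit false

open NumberField Complex Filter Topology Ideal

namespace Pool.Agent.H78DN

open Pool.Agent.Y773 Pool.Agent.Y772.DK

variable {K : Type} [Field K] [NumberField K]

/-- the higher prime powers -/
def HP (K : Type) [Field K] [NumberField K] : Set (Ideal (𝓞 K)) :=
  {𝔞 | ∃ (P : Ideal (𝓞 K)) (k : ℕ), Prime P ∧ 𝔞 = P ^ (k + 2)}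

lemma two_le_absNorm {P : Ideal (𝓞 K)} (hP : Prime P) : 2 ≤ absNorm P := by
  have h1 := absNorm_pos' hP.ne_zero
  have h2 : absNorm P ≠ 1 := by
    rw [Ne, absNorm_eq_one_iff]
    exact (isPrime_of_prime hP).ne_top
  omega

lemma summable_HP : Summable (fun 𝔞 : HP K => ((absNorm (𝔞 : Ideal (𝓞 K)) : ℕ) : ℝ)⁻¹) := by
  classical
  have h1 : Summable (fun x : Ideal (𝓞 K) × ℕ => nr K 2 x.1 * (1 / 2 : ℝ) ^ x.2) :=
    Summable.mul_of_nonneg (nr_summable K (by norm_num)) summable_geometric_two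
      (fun 𝔞 => nr_nonneg K _ _) (fun n => by positivity)
  choose P k hP hk using fun 𝔞 : HP K => 𝔞.2
  have hinj : Function.Injective (fun 𝔞 : HP K => (P 𝔞, k 𝔞)) := by
    intro 𝔞 𝔟 h
    simp only [Prod.mk.injEq] at h
    apply Subtype.ext
    rw [hk 𝔞, hk 𝔟, h.1, h.2]
  refine Summable.of_nonneg_of_le (fun _ => by positivity) (fun 𝔞 => ?_) (h1.comp_injective hinj)
  simp only [Function.comp_apply]
  have h2 := two_le_absNorm (hP 𝔞)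
  rw [hk 𝔞]
  rw [map_pow, Nat.cast_pow, pow_add, mul_inv, mul_comm]
  unfold nr
  have h3 : (2 : ℝ) ≤ ((absNorm (P 𝔞) : ℕ) : ℝ) := by exact_mod_cast h2
  rw [show (-2 : ℝ) = -((2 : ℕ) : ℝ) by norm_num, Real.rpow_neg (Nat.cast_nonneg _),
    Real.rpow_natCast]
  refine mul_le_mul_of_nonneg_left ?_ (by positivity)
  rw [← inv_pow]
  refine pow_le_pow_left₀ (by positivity) ?_ _
  rw [inv_le_comm₀ (by linarith) (by norm_num)]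
  norm_num
  exact h2

/-- the sum of the inverses of the norms of the higher prime powers -/
noncomputable def CA (K : Type) [Field K] [NumberField K] : ℝ :=
  ∑' 𝔞 : HP K, ((absNorm (𝔞 : Ideal (𝓞 K)) : ℕ) : ℝ)⁻¹

open scoped Classical in
/-- the restriction to the maximal ideals -/
noncomputable def pr (ψ : Ideal (𝓞 K) →*₀ ℂ) (𝔞 : Ideal (𝓞 K)) : ℂ :=
  if 𝔞.IsMaximal ∧ 𝔞 ≠ 0 then ψ 𝔞 else 0

lemma pr_zero (ψ : Ideal (𝓞 K) →*₀ ℂ) : pr ψ 0 = 0 := by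
  unfold pr
  rw [if_neg]
  rintro ⟨-, h⟩
  exact h rfl

lemma pr_le (ψ : Ideal (𝓞 K) →*₀ ℂ) (hψ : ∀ 𝔞, ‖ψ 𝔞‖ ≤ 1) (𝔞 : Ideal (𝓞 K)) : ‖pr ψ 𝔞‖ ≤ 1 := by
  unfold pr
  split_ifs
  · exact hψ 𝔞
  · simp

lemma ee_prime (ψ : Ideal (𝓞 K) →*₀ ℂ) {P : Ideal (𝓞 K)} (hP : Prime P) : ee ψ P = ψ P := by
  unfold ee
  have h1 := VM_pow hP one_ne_zero
  rw [pow_one] at h1
  have h2 : Real.log (absNorm P) ≠ 0 := by
    have h3 := two_le_absNorm hP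
    exact (Real.log_pos (by exact_mod_cast h3)).ne'
  rw [h1, div_self h2, ofReal_one, one_mul]

lemma ee_sub_pr (ψ : Ideal (𝓞 K) →*₀ ℂ) {𝔞 : Ideal (𝓞 K)} (h : 𝔞 ∉ HP K) : ee ψ 𝔞 = pr ψ 𝔞 := by
  by_cases h0 : 𝔞 = 0
  · rw [h0, ee_zero, pr_zero]
  by_cases h1 : IsPrimePow 𝔞
  · obtain ⟨P, k, hP, hk, rfl⟩ := h1
    have hk1 : k = 1 := by
      by_contra hk1
      exact h ⟨P, k - 2, hP, by rw [Nat.sub_add_cancel (by omega)]⟩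
    subst hk1
    rw [pow_one] at *
    rw [ee_prime ψ hP]
    unfold pr
    rw [if_pos]
    exact ⟨(isPrime_of_prime hP).isMaximal hP.ne_zero, hP.ne_zero⟩
  · unfold ee pr
    rw [VM_of_not h1, if_neg]
    · simp
    · rintro ⟨h2, -⟩
      exact h1 (prime_of_isPrime h0 h2.isPrime).isPrimePow

/-- **Lemma A** -/
lemma LA_ee_pr (ψ : Ideal (𝓞 K) →*₀ ℂ) (hψ : ∀ 𝔞, ‖ψ 𝔞‖ ≤ 1) {s : ℝ} (hs : 1 < s) :
    ‖LA (ee ψ) s - LA (pr ψ) s‖ ≤ 2 * CA K := by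
  classical
  have h1 : Summable (fun 𝔞 : Ideal (𝓞 K) => ee ψ 𝔞 * ((absNorm 𝔞 : ℕ) : ℂ) ^ (-(s : ℂ))) :=
    (term_summable (ee_zero ψ) (ee_le ψ hψ) (s := (s : ℂ)) (by simpa using hs)).of_norm
  have h2 : Summable (fun 𝔞 : Ideal (𝓞 K) => pr ψ 𝔞 * ((absNorm 𝔞 : ℕ) : ℂ) ^ (-(s : ℂ))) :=
    (term_summable (pr_zero ψ) (pr_le ψ hψ) (s := (s : ℂ)) (by simpa using hs)).of_norm
  unfold LA
  rw [← h1.tsum_sub h2]
  set f : Ideal (𝓞 K) → ℂ := fun 𝔞 => ee ψ 𝔞 * ((absNorm 𝔞 : ℕ) : ℂ) ^ (-(s : ℂ)) -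
    pr ψ 𝔞 * ((absNorm 𝔞 : ℕ) : ℂ) ^ (-(s : ℂ)) with hf
  have h3 : Function.support f ⊆ HP K := by
    intro 𝔞 h
    by_contra h4
    apply h
    rw [hf]
    simp only
    rw [ee_sub_pr ψ h4, sub_self]
  rw [← tsum_subtype_eq_of_support_subset h3]
  have h5 : ∀ 𝔞 : HP K, ‖f 𝔞‖ ≤ 2 * ((absNorm (𝔞 : Ideal (𝓞 K)) : ℕ) : ℝ)⁻¹ := by
    intro 𝔞
    have h0 : (𝔞 : Ideal (𝓞 K)) ≠ 0 := by
      obtain ⟨P, k, hP, hk⟩ := 𝔞.2
      rw [hk]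
      exact pow_ne_zero _ hP.ne_zero
    have h6 := absNorm_pos' h0
    rw [hf]
    simp only
    rw [← sub_mul, norm_mul, Complex.norm_natCast_cpow_of_pos h6, neg_re, ofReal_re]
    have h7 : ‖ee ψ 𝔞 - pr ψ 𝔞‖ ≤ 2 := by
      calc ‖ee ψ 𝔞 - pr ψ 𝔞‖ ≤ ‖ee ψ 𝔞‖ + ‖pr ψ 𝔞‖ := norm_sub_le _ _
        _ ≤ 1 + 1 := add_le_add (ee_le ψ hψ _) (pr_le ψ hψ _)
        _ = 2 := by norm_num
    refine mul_le_mul h7 ?_ (Real.rpow_nonneg (Nat.cast_nonneg _) _) (by norm_num)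
    rw [← Real.rpow_neg_one]
    refine Real.rpow_le_rpow_of_exponent_le ?_ (by linarith)
    exact_mod_cast h6
  unfold CA
  rw [← tsum_mul_left]
  exact tsum_of_norm_bounded ((summable_HP (K := K)).mul_left 2).hasSum h5

end Pool.Agent.H78DN
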