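import Pool.Agent.H78DN.A
import Pool.Agent.Y772.NZ.Zeta
import Pool.Agent.H55.MU.Stm

/-!
# Sums over the primes: the behaviour at `s = 1`
-/

set_option autoImplicit false

open NumberField Complex Filter Topology Ideal

namespace Pool.Agent.H78DN

open Pool.Agent.Y773 Pool.Agent.Y772.DK Pool.Agent.Y772.NZ

lemma bounded_of_tendsto {f : ℝ → ℝ} (hf : ContinuousOn f (Set.Ioi 1)) {L : ℝ}
    (hL : Tendsto f (𝓝[>] 1) (𝓝 L)) : ∃ C : ℝ, ∀ s : ℝ, 1 < s → s ≤ 2 → |f s| ≤ C := by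
  have h1 : ∀ᶠ s in 𝓝[>] (1 : ℝ), |f s| < |L| + 1 := hL.abs.eventually_lt_const (lt_add_one _)
  rw [eventually_nhdsWithin_iff, Metric.eventually_nhds_iff] at h1
  obtain ⟨ε, hε, h1⟩ := h1
  have h2 : ContinuousOn f (Set.Icc (1 + ε / 2) 2) := hf.mono fun s hs => by
    have := hs.1
    simp only [Set.mem_Ioi]
    linarith
  obtain ⟨C, hC⟩ := isCompact_Icc.exists_bound_of_continuousOn h2
  refine ⟨max C (|L| + 1), fun s hs1 hs2 => ?_⟩
  rcases le_or_gt (1 + ε / 2) s with h | h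
  · exact le_max_of_le_left (hC s ⟨h, hs2⟩)
  · refine le_max_of_le_right (h1 ?_ hs1).le
    rw [Real.dist_eq, abs_of_pos (by linarith)]
    linarith

variable {K : Type} [Field K] [NumberField K]

lemma cont_re (ψ : Ideal (𝓞 K) →*₀ ℂ) (hψ : ∀ 𝔞, ‖ψ 𝔞‖ ≤ 1) :
    ContinuousOn (fun s : ℝ => (LA (ee ψ) (s : ℂ)).re) (Set.Ioi 1) := by
  intro s hs
  have h1 := (LA_diff (ee_zero ψ) (ee_le ψ hψ) (s := (s : ℂ)) (by simpa using hs)).1.continuousAt
  have h2 : ContinuousAt (fun s : ℝ => (LA (ee ψ) (s : ℂ)).re) s :=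
    continuous_re.continuousAt.comp (h1.comp continuous_ofReal.continuousAt)
  exact h2.continuousWithinAt

/-- no pole -/
lemma re_bounded (ψ : Ideal (𝓞 K) →*₀ ℂ) (hψ : ∀ 𝔞, ‖ψ 𝔞‖ ≤ 1) {G : ℂ → ℂ}
    (hG : ContinuousAt G 1) (hG1 : G 1 ≠ 0) (h : ∀ s : ℂ, 1 < s.re → G s = LI ψ s) :
    ∃ C : ℝ, ∀ s : ℝ, 1 < s → s ≤ 2 → |(LA (pr ψ) (s : ℂ)).re| ≤ C := by
  have ht : Tendsto (fun s : ℝ => (s : ℂ)) (𝓝[>] 1) (𝓝 (1 : ℂ)) := by
    have h0 := (continuous_ofReal.tendsto (1 : ℝ))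
    rw [ofReal_one] at h0
    exact h0.mono_left nhdsWithin_le_nhds
  have h1 : Tendsto (fun s : ℝ => (LA (ee ψ) (s : ℂ)).re) (𝓝[>] 1) (𝓝 (Real.log ‖G 1‖)) := by
    have h2 : Tendsto (fun s : ℝ => Real.log ‖G (s : ℂ)‖) (𝓝[>] 1) (𝓝 (Real.log ‖G 1‖)) := by
      have h3 := (hG.tendsto.comp ht).norm
      exact h3.log (norm_ne_zero_iff.mpr hG1)
    refine h2.congr' ?_
    filter_upwards [self_mem_nhdsWithin] with s hs
    have hs' : 1 < ((s : ℝ) : ℂ).re := by simpa using hs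
    rw [h _ hs', LI_eq_exp ψ hψ hs', Complex.norm_exp, Real.log_exp]
  obtain ⟨C, hC⟩ := bounded_of_tendsto (cont_re ψ hψ) h1
  refine ⟨C + 2 * CA K, fun s hs1 hs2 => ?_⟩
  have h4 := LA_ee_pr ψ hψ hs1
  have h5 := hC s hs1 hs2
  have h6 := (abs_re_le_norm (LA (ee ψ) (s : ℂ) - LA (pr ψ) (s : ℂ))).trans h4
  rw [sub_re, abs_le] at h6
  rw [abs_le] at h5 ⊢
  constructor <;> linarith [h5.1, h5.2, h6.1, h6.2]

/-- the pole of the Dedekind zeta function -/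
lemma re_one (K : Type) [Field K] [NumberField K] :
    ∃ C : ℝ, ∀ s : ℝ, 1 < s → s ≤ 2 →
      |(LA (pr (one K)) (s : ℂ)).re - Real.log (1 / (s - 1))| ≤ C := by
  have h4 := (tendsto_sub_one_mul_dedekindZeta_nhdsGT K).norm
  have h5 : Tendsto (fun s : ℝ => (LA (ee (one K)) (s : ℂ)).re - Real.log (1 / (s - 1)))
      (𝓝[>] 1) (𝓝 (Real.log ‖((dedekindZeta_residue K : ℝ) : ℂ)‖)) := by
    have h6 : ‖((dedekindZeta_residue K : ℝ) : ℂ)‖ ≠ 0 := by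
      rw [norm_ne_zero_iff]
      exact_mod_cast dedekindZeta_residue_ne_zero K
    refine (h4.log h6).congr' ?_
    filter_upwards [self_mem_nhdsWithin] with s hs
    have hs0 : 1 < s := hs
    have hs' : 1 < ((s : ℝ) : ℂ).re := by simpa using hs
    have h7 : LI (one K) (s : ℂ) = dedekindZeta K s := LI_one K hs'
    have h8 := LI_eq_exp (one K) (one_norm K) hs'
    rw [← h7, norm_mul, h8, Complex.norm_exp, Real.log_mul _ (Real.exp_pos _).ne', Real.log_exp,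
      one_div, Real.log_inv, sub_neg_eq_add, add_comm]
    · congr 2
      rw [show (s : ℂ) - 1 = ((s - 1 : ℝ) : ℂ) by push_cast; rfl, norm_real, Real.norm_eq_abs,
        abs_of_pos (by linarith)]
    · rw [norm_ne_zero_iff, show (s : ℂ) - 1 = ((s - 1 : ℝ) : ℂ) by push_cast; rfl]
      exact_mod_cast (by linarith : (0 : ℝ) < s - 1).ne'
  have h9 : ContinuousOn (fun s : ℝ => (LA (ee (one K)) (s : ℂ)).re - Real.log (1 / (s - 1)))
      (Set.Ioi 1) := by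
    refine (cont_re (one K) (one_norm K)).sub ?_
    refine ContinuousOn.log ?_ ?_
    · refine ContinuousOn.div continuousOn_const (continuousOn_id.sub continuousOn_const) ?_
      intro s hs
      have : (1 : ℝ) < s := hs
      linarith
    · intro s hs
      have : (1 : ℝ) < s := hs
      have h10 : 0 < 1 / (s - 1) := by
        apply div_pos one_pos
        linarith
      exact h10.ne'
  obtain ⟨C, hC⟩ := bounded_of_tendsto h9 h5
  refine ⟨C + 2 * CA K, fun s hs1 hs2 => ?_⟩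
  have h4 := LA_ee_pr (one K) (one_norm K) hs1
  have h5 := hC s hs1 hs2
  have h6 := (abs_re_le_norm (LA (ee (one K)) (s : ℂ) - LA (pr (one K)) (s : ℂ))).trans h4
  rw [sub_re, abs_le] at h6
  rw [abs_le] at h5 ⊢
  constructor <;> linarith [h5.1, h5.2, h6.1, h6.2]

lemma max_ne_zero {𝔞 : Ideal (𝓞 K)} (h : 𝔞.IsMaximal) : 𝔞 ≠ 0 :=
  Ring.ne_bot_of_isMaximal_of_not_isField h (RingOfIntegers.not_isField K)

open scoped Classical in
/-- the terms of `PS` -/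
noncomputable def tm (T : Set (Ideal (𝓞 K))) (s : ℝ) (𝔞 : Ideal (𝓞 K)) : ℝ :=
  if 𝔞.IsMaximal ∧ 𝔞 ∈ T then ((absNorm 𝔞 : ℕ) : ℝ) ^ (-s) else 0

lemma PS_eq (T : Set (Ideal (𝓞 K))) (s : ℝ) : H55.MU.PS K T s = ∑' 𝔞, tm T s 𝔞 := rfl

lemma tm_nonneg (T : Set (Ideal (𝓞 K))) (s : ℝ) (𝔞 : Ideal (𝓞 K)) : 0 ≤ tm T s 𝔞 := by
  unfold tm
  split_ifs
  · exact Real.rpow_nonneg (Nat.cast_nonneg _) _
  · exact le_rfl

lemma tm_le_nr (T : Set (Ideal (𝓞 K))) (s : ℝ) (𝔞 : Ideal (𝓞 K)) : tm T s 𝔞 ≤ nr K s 𝔞 := by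
  unfold tm
  split_ifs
  · exact le_rfl
  · exact nr_nonneg K _ _

lemma tm_summable (T : Set (Ideal (𝓞 K))) {s : ℝ} (hs : 1 < s) : Summable (tm T s) :=
  Summable.of_nonneg_of_le (tm_nonneg T s) (tm_le_nr T s) (nr_summable K hs)

lemma LA_pr_one {s : ℝ} (hs : 1 < s) :
    (LA (pr (one K)) (s : ℂ)).re = H55.MU.PS K Set.univ s := by
  have h1 : ∀ 𝔞 : Ideal (𝓞 K), pr (one K) 𝔞 * ((absNorm 𝔞 : ℕ) : ℂ) ^ (-(s : ℂ)) =
      ((tm Set.univ s 𝔞 : ℝ) : ℂ) := by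
    intro 𝔞
    unfold pr tm
    by_cases h : 𝔞.IsMaximal
    · rw [if_pos ⟨h, max_ne_zero h⟩, if_pos ⟨h, Set.mem_univ _⟩, one_ne K (max_ne_zero h), one_mul,
        ofReal_cpow (Nat.cast_nonneg _)]
      push_cast
      rfl
    · rw [if_neg (fun h' => h h'.1), if_neg (fun h' => h h'.1), zero_mul, ofReal_zero]
  unfold LA
  rw [tsum_congr h1, ← ofReal_tsum, ofReal_re]
  rfl

end Pool.Agent.H78DN
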