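import Pool.Agent.H78DN.B

/-!
# Density of the primes with class in a subgroup of the class group
-/

set_option autoImplicit false

open NumberField Complex Filter Topology Ideal
open scoped nonZeroDivisors

namespace Pool.Agent.H78DN

open Pool.Agent.Y773 Pool.Agent.Y772.DK Pool.Agent.Y772.NZ

variable {K : Type} [Field K] [NumberField K]

/-- the nonzero ideals -/
def nz {𝔞 : Ideal (𝓞 K)} (h : 𝔞 ≠ 0) : (Ideal (𝓞 K))⁰ := ⟨𝔞, mem_nonZeroDivisors_of_ne_zero h⟩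

lemma nz_mul {𝔞 𝔟 : Ideal (𝓞 K)} (h : 𝔞 ≠ 0) (h' : 𝔟 ≠ 0) :
    nz (mul_ne_zero h h') = nz h * nz h' := rfl

variable (D : Subgroup (ClassGroup (𝓞 K)))

/-- the class modulo `D` -/
noncomputable def cl {𝔞 : Ideal (𝓞 K)} (h : 𝔞 ≠ 0) : Additive (ClassGroup (𝓞 K) ⧸ D) :=
  Additive.ofMul (QuotientGroup.mk (ClassGroup.mk0 (nz h)))

lemma cl_mul {𝔞 𝔟 : Ideal (𝓞 K)} (h : 𝔞 ≠ 0) (h' : 𝔟 ≠ 0) :
    cl D (mul_ne_zero h h') = cl D h + cl D h' := by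
  unfold cl
  rw [nz_mul, map_mul, QuotientGroup.mk_mul, ofMul_mul]

lemma cl_eq_zero {𝔞 : Ideal (𝓞 K)} (h : 𝔞 ≠ 0) : cl D h = 0 ↔ ClassGroup.mk0 (nz h) ∈ D := by
  unfold cl
  rw [ofMul_eq_zero, QuotientGroup.eq_one_iff]

open scoped Classical in
/-- the character of the ideals -/
noncomputable def et (ψ : AddChar (Additive (ClassGroup (𝓞 K) ⧸ D)) ℂ) : Ideal (𝓞 K) →*₀ ℂ where
  toFun 𝔞 := if h : 𝔞 = 0 then 0 else ψ (cl D h)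
  map_zero' := dif_pos rfl
  map_one' := by
    rw [dif_neg one_ne_zero]
    have : cl D (one_ne_zero (α := Ideal (𝓞 K))) = 0 := by
      rw [cl_eq_zero]
      have h1 : nz (one_ne_zero (α := Ideal (𝓞 K))) = 1 := rfl
      rw [h1, map_one]
      exact D.one_mem
    rw [this, AddChar.map_zero_eq_one]
  map_mul' 𝔞 𝔟 := by
    by_cases h1 : 𝔞 = 0
    · rw [dif_pos (by rw [h1, zero_mul]), dif_pos h1, zero_mul]
    · by_cases h2 : 𝔟 = 0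
      · rw [dif_pos (by rw [h2, mul_zero]), dif_pos h2, mul_zero]
      · rw [dif_neg (mul_ne_zero h1 h2), dif_neg h1, dif_neg h2, cl_mul D h1 h2,
          AddChar.map_add_eq_mul]

lemma et_ne (ψ : AddChar (Additive (ClassGroup (𝓞 K) ⧸ D)) ℂ) {𝔞 : Ideal (𝓞 K)} (h : 𝔞 ≠ 0) :
    et D ψ 𝔞 = ψ (cl D h) := dif_neg h

instance : Finite (Additive (ClassGroup (𝓞 K) ⧸ D)) :=
  inferInstanceAs (Finite (ClassGroup (𝓞 K) ⧸ D))

lemma et_norm (ψ : AddChar (Additive (ClassGroup (𝓞 K) ⧸ D)) ℂ) (𝔞 : Ideal (𝓞 K)) :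
    ‖et D ψ 𝔞‖ ≤ 1 := by
  by_cases h : 𝔞 = 0
  · rw [h, map_zero]; simp
  · rw [et_ne D ψ h, AddChar.norm_apply]

lemma et_nonzero (ψ : AddChar (Additive (ClassGroup (𝓞 K) ⧸ D)) ℂ) {𝔞 : Ideal (𝓞 K)}
    (h : 𝔞 ≠ 0) : et D ψ 𝔞 ≠ 0 := by
  rw [et_ne D ψ h, ← norm_ne_zero_iff, AddChar.norm_apply]
  exact one_ne_zero

lemma et_one : et D (1 : AddChar (Additive (ClassGroup (𝓞 K) ⧸ D)) ℂ) = one K := by
  ext 𝔞
  by_cases h : 𝔞 = 0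
  · rw [h, map_zero, map_zero]
  · rw [et_ne D _ h, one_ne K h, AddChar.one_apply]

lemma et_ray (ψ : AddChar (Additive (ClassGroup (𝓞 K) ⧸ D)) ℂ) {x : 𝓞 K} (hx : x ≠ 0) :
    et D ψ (Ideal.span {x}) = 1 := by
  have h : Ideal.span {x} ≠ 0 := by
    rw [Ne, Ideal.zero_eq_bot, Ideal.span_singleton_eq_bot]
    exact hx
  rw [et_ne D ψ h]
  have : cl D h = 0 := by
    rw [cl_eq_zero]
    have h1 : ClassGroup.mk0 (nz h) = 1 := by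
      rw [ClassGroup.mk0_eq_one_iff]
      exact ⟨x, rfl⟩
    rw [h1]
    exact D.one_mem
  rw [this, AddChar.map_zero_eq_one]

lemma exists_ne (ψ : AddChar (Additive (ClassGroup (𝓞 K) ⧸ D)) ℂ) (hψ : ψ ≠ 1) :
    ∃ 𝔞 : Ideal (𝓞 K), 𝔞 ≠ 0 ∧ et D ψ 𝔞 ≠ 1 := by
  obtain ⟨x, hx⟩ := AddChar.ne_one_iff.mp hψ
  obtain ⟨c, hc⟩ := QuotientGroup.mk_surjective (Additive.toMul x)
  obtain ⟨𝔞, h𝔞⟩ := ClassGroup.mk0_surjective c
  have h0 : (𝔞 : Ideal (𝓞 K)) ≠ 0 := nonZeroDivisors.ne_zero 𝔞.2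
  refine ⟨𝔞, h0, ?_⟩
  rw [et_ne D ψ h0]
  have : cl D h0 = x := by
    unfold cl
    have h1 : nz h0 = 𝔞 := rfl
    rw [h1, h𝔞, hc]
    rfl
  rw [this]
  exact hx

/-- the set of the ideals with class in `D` -/
def TD : Set (Ideal (𝓞 K)) :=
  {𝔭 | ∃ h : 𝔭 ∈ nonZeroDivisors (Ideal (𝓞 K)), ClassGroup.mk0 ⟨𝔭, h⟩ ∈ D}

lemma mem_TD {𝔞 : Ideal (𝓞 K)} (h : 𝔞 ≠ 0) : 𝔞 ∈ TD D ↔ cl D h = 0 := by
  rw [cl_eq_zero]
  constructor
  · rintro ⟨h1, h2⟩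
    exact h2
  · intro h1
    exact ⟨_, h1⟩

open scoped Classical in
lemma sum_pr (𝔞 : Ideal (𝓞 K)) (s : ℝ) :
    ∑ ψ : AddChar (Additive (ClassGroup (𝓞 K) ⧸ D)) ℂ,
      pr (et D ψ) 𝔞 * ((absNorm 𝔞 : ℕ) : ℂ) ^ (-(s : ℂ)) =
    (((D.index : ℝ) * tm (TD D) s 𝔞 : ℝ) : ℂ) := by
  have : Fintype (Additive (ClassGroup (𝓞 K) ⧸ D)) := Fintype.ofFinite _
  rw [← Finset.sum_mul]
  unfold pr tm
  by_cases h : 𝔞.IsMaximal
  · have h0 := max_ne_zero h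
    simp only [h, h0, ne_eq, not_false_eq_true, and_self, if_true, true_and]
    have h1 : ∀ ψ : AddChar (Additive (ClassGroup (𝓞 K) ⧸ D)) ℂ, et D ψ 𝔞 = ψ (cl D h0) :=
      fun ψ => et_ne D ψ h0
    rw [Finset.sum_congr rfl (fun ψ _ => h1 ψ), AddChar.sum_apply_eq_ite]
    by_cases h2 : 𝔞 ∈ TD D
    · rw [if_pos ((mem_TD D h0).mp h2), if_pos h2, ofReal_mul, ofReal_cpow (Nat.cast_nonneg _)]
      congr 1
      · rw [← Nat.card_eq_fintype_card]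
        rfl
      · push_cast
        rfl
    · rw [if_neg (fun h3 => h2 ((mem_TD D h0).mpr h3)), if_neg h2]
      simp
  · simp only [h, false_and, if_false]
    simp

/-- the first part, given the non-vanishing -/
theorem part1 (hN : ∀ ψ : AddChar (Additive (ClassGroup (𝓞 K) ⧸ D)) ℂ, ψ ≠ 1 →
    ∃ C : ℝ, ∀ s : ℝ, 1 < s → s ≤ 2 → |(LA (pr (et D ψ)) (s : ℂ)).re| ≤ C) :
    ∃ C : ℝ, ∀ s : ℝ, 1 < s → s ≤ 2 →
      |(D.index : ℝ) * H55.MU.PS K (TD D) s - Real.log (1 / (s - 1))| ≤ C := by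
  classical
  obtain ⟨C0, hC0⟩ := re_one K
  choose! C hC using hN
  refine ⟨C0 + ∑ ψ ∈ Finset.univ.erase (1 : AddChar (Additive (ClassGroup (𝓞 K) ⧸ D)) ℂ), C ψ,
    fun s hs1 hs2 => ?_⟩
  have h1 : (D.index : ℝ) * H55.MU.PS K (TD D) s =
      ∑ ψ : AddChar (Additive (ClassGroup (𝓞 K) ⧸ D)) ℂ, (LA (pr (et D ψ)) (s : ℂ)).re := by
    rw [PS_eq, ← tsum_mul_left]
    rw [← re_sum]
    unfold LA
    rw [← Summable.tsum_finsetSum]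
    · rw [tsum_congr (fun 𝔞 => sum_pr D 𝔞 s), ← ofReal_tsum, ofReal_re]
    · intro ψ _
      exact (term_summable (pr_zero (et D ψ)) (pr_le (et D ψ) (et_norm D ψ)) (s := (s : ℂ))
        (by simpa using hs1)).of_norm
  rw [h1, ← Finset.add_sum_erase _ _ (Finset.mem_univ 1), et_one]
  have h2 : |∑ ψ ∈ Finset.univ.erase (1 : AddChar (Additive (ClassGroup (𝓞 K) ⧸ D)) ℂ),
      (LA (pr (et D ψ)) (s : ℂ)).re| ≤
      ∑ ψ ∈ Finset.univ.erase (1 : AddChar (Additive (ClassGroup (𝓞 K) ⧸ D)) ℂ), C ψ := by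
    refine (Finset.abs_sum_le_sum_abs _ _).trans (Finset.sum_le_sum fun ψ hψ => ?_)
    exact hC ψ (Finset.ne_of_mem_erase hψ) s hs1 hs2
  have h3 := hC0 s hs1 hs2
  rw [abs_le] at h2 h3 ⊢
  constructor <;> linarith [h2.1, h2.2, h3.1, h3.2]

end Pool.Agent.H78DN
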