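import Pool.Agent.H78DN.B

/-!
# Density of the primes with a prime of relative degree one above them
-/

set_option autoImplicit false

open NumberField Complex Filter Topology Ideal

namespace Pool.Agent.H78DN

open Pool.Agent.Y773 Pool.Agent.Y772.DK Pool.Agent.Y772.NZ

variable (K M : Type) [Field K] [NumberField K] [Field M] [NumberField M] [Algebra K M]

/-- the primes of `K` with a prime of the same norm above -/
def TM : Set (Ideal (𝓞 K)) :=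
  {𝔭 | ∃ 𝔓 : Ideal (𝓞 M), 𝔓.IsMaximal ∧ 𝔓.under (𝓞 K) = 𝔭 ∧ Ideal.absNorm 𝔓 = Ideal.absNorm 𝔭}

variable {K M}

lemma norm_over {𝔭 : Ideal (𝓞 K)} (h𝔭 : 𝔭.IsMaximal) {𝔓 : Ideal (𝓞 M)} (h𝔓 : 𝔓.IsMaximal)
    (h : 𝔓.LiesOver 𝔭) : absNorm 𝔓 = absNorm 𝔭 ^ (𝔓.inertiaDeg (𝓞 K)) := by
  rw [← inertiaDeg'_eq_inertiaDeg 𝔭 𝔓]
  exact absNorm_eq_pow_inertiaDeg'_of_liesOver 𝔓 𝔭 h𝔭.isPrime (max_ne_zero h𝔭)

lemma fin_over {𝔭 : Ideal (𝓞 K)} (h𝔭 : 𝔭.IsMaximal) : (primesOver 𝔭 (𝓞 M)).Finite := by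
  have := h𝔭.isPrime
  exact Algebra.QuasiFinite.finite_primesOver 𝔭

lemma mem_over {𝔭 : Ideal (𝓞 K)} (h𝔭 : 𝔭.IsMaximal) {𝔓 : Ideal (𝓞 M)} :
    𝔓 ∈ primesOver 𝔭 (𝓞 M) ↔ 𝔓.IsMaximal ∧ 𝔓.under (𝓞 K) = 𝔭 := by
  constructor
  · rintro ⟨h1, h2⟩
    refine ⟨?_, h2.over.symm⟩
    refine h1.isMaximal ?_
    rintro rfl
    have h3 := h2.over
    rw [Ideal.under_bot] at h3
    exact max_ne_zero h𝔭 h3
  · rintro ⟨h1, h2⟩
    exact ⟨h1.isPrime, ⟨h2.symm⟩⟩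

/-- the sum over the fibre -/
noncomputable def Fb (M : Type) [Field M] [NumberField M] [Algebra K M] (s : ℝ)
    (𝔟 : Ideal (𝓞 K)) : ℝ :=
  ∑' 𝔞 : ((fun 𝔞 : Ideal (𝓞 M) => 𝔞.under (𝓞 K)) ⁻¹' {𝔟} : Set (Ideal (𝓞 M))),
    tm Set.univ s (𝔞 : Ideal (𝓞 M))

lemma hasSum_Fb {s : ℝ} (hs : 1 < s) : HasSum (Fb (K := K) M s) (H55.MU.PS M Set.univ s) := by
  have h := (tm_summable (K := M) Set.univ hs).hasSum
  exact h.tsum_fiberwise (fun 𝔞 : Ideal (𝓞 M) => 𝔞.under (𝓞 K))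

lemma Fb_max {s : ℝ} {𝔟 : Ideal (𝓞 K)} (h : 𝔟.IsMaximal) :
    Fb M s 𝔟 = ∑ 𝔓 ∈ (fin_over (M := M) h).toFinset, ((absNorm 𝔓 : ℕ) : ℝ) ^ (-s) := by
  unfold Fb
  rw [tsum_subtype]
  rw [tsum_eq_sum (s := (fin_over (M := M) h).toFinset)]
  · refine Finset.sum_congr rfl fun 𝔓 h𝔓 => ?_
    rw [Set.Finite.mem_toFinset, mem_over h] at h𝔓
    rw [Set.indicator_of_mem (by exact h𝔓.2)]
    unfold tm
    rw [if_pos ⟨h𝔓.1, Set.mem_univ _⟩]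
  · intro 𝔓 h𝔓
    rw [Set.Finite.mem_toFinset, mem_over h] at h𝔓
    by_cases h2 : 𝔓.under (𝓞 K) = 𝔟
    · rw [Set.indicator_of_mem (by exact h2)]
      unfold tm
      rw [if_neg]
      rintro ⟨h3, -⟩
      exact h𝔓 ⟨h3, h2⟩
    · rw [Set.indicator_of_notMem (by exact h2)]

lemma Fb_not_max {s : ℝ} {𝔟 : Ideal (𝓞 K)} (h : ¬ 𝔟.IsMaximal) : Fb M s 𝔟 = 0 := by
  unfold Fb
  have h1 : ∀ 𝔞 : ((fun 𝔞 : Ideal (𝓞 M) => 𝔞.under (𝓞 K)) ⁻¹' {𝔟} : Set (Ideal (𝓞 M))),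
      tm Set.univ s (𝔞 : Ideal (𝓞 M)) = 0 := by
    rintro ⟨𝔞, h𝔞⟩
    unfold tm
    rw [if_neg]
    rintro ⟨h2, -⟩
    simp only at h2
    apply h
    have h3 : 𝔞.under (𝓞 K) = 𝔟 := h𝔞
    rw [← h3]
    infer_instance
  rw [tsum_congr h1, tsum_zero]

variable [IsGalois K M]

lemma card_over {𝔭 : Ideal (𝓞 K)} (h𝔭 : 𝔭.IsMaximal) :
    (primesOver 𝔭 (𝓞 M)).ncard * (ramificationIdxIn 𝔭 (𝓞 M) * inertiaDegIn 𝔭 (𝓞 M)) =
      Module.finrank K M := by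
  have := h𝔭.isPrime
  rw [ncard_primesOver_mul_ramificationIdxIn_mul_inertiaDegIn 𝔭 (𝓞 M) Gal(M/K),
    IsGalois.card_aut_eq_finrank]

lemma ncard_over_le {𝔭 : Ideal (𝓞 K)} (h𝔭 : 𝔭.IsMaximal) :
    (primesOver 𝔭 (𝓞 M)).ncard ≤ Module.finrank K M := by
  rw [← card_over (M := M) h𝔭]
  have := h𝔭.isPrime
  refine Nat.le_mul_of_pos_right _ (Nat.mul_pos ?_ ?_)
  · exact Nat.pos_of_ne_zero (ramificationIdxIn_ne_zero Gal(M/K))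
  · exact Nat.pos_of_ne_zero (inertiaDegIn_ne_zero Gal(M/K))

lemma Fb_le {s : ℝ} (hs : 1 < s) (𝔟 : Ideal (𝓞 K)) :
    Fb M s 𝔟 ≤ (Module.finrank K M : ℝ) * (tm (TM K M) s 𝔟 + nr K 2 𝔟) := by
  have hpos : 0 ≤ tm (TM K M) s 𝔟 + nr K 2 𝔟 := add_nonneg (tm_nonneg _ _ _) (nr_nonneg _ _ _)
  by_cases h : 𝔟.IsMaximal
  · rw [Fb_max h]
    have h1 : ∀ 𝔓 ∈ (fin_over (M := M) h).toFinset, ((absNorm 𝔓 : ℕ) : ℝ) ^ (-s) ≤
        tm (TM K M) s 𝔟 + nr K 2 𝔟 := by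
      intro 𝔓 h𝔓
      rw [Set.Finite.mem_toFinset, mem_over h] at h𝔓
      have h2 := norm_over h h𝔓.1 ⟨h𝔓.2.symm⟩
      have h2' := two_le_absNorm (prime_of_isPrime (max_ne_zero h) h.isPrime)
      have h2r : (1 : ℝ) ≤ ((absNorm 𝔟 : ℕ) : ℝ) := by exact_mod_cast (by omega : 1 ≤ absNorm 𝔟)
      by_cases h3 : absNorm 𝔓 = absNorm 𝔟
      · have h4 : 𝔟 ∈ TM K M := ⟨𝔓, h𝔓.1, h𝔓.2, h3⟩
        have h5 : tm (TM K M) s 𝔟 = ((absNorm 𝔟 : ℕ) : ℝ) ^ (-s) := by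
          unfold tm
          rw [if_pos ⟨h, h4⟩]
        rw [h5, h3]
        have := nr_nonneg K 2 𝔟
        linarith
      · have h6 : 2 ≤ 𝔓.inertiaDeg (𝓞 K) := by
          by_contra h7
          have h8 : 𝔓.inertiaDeg (𝓞 K) = 0 ∨ 𝔓.inertiaDeg (𝓞 K) = 1 := by omega
          rcases h8 with h8 | h8
          · rw [h8, pow_zero] at h2
            have := two_le_absNorm (prime_of_isPrime (max_ne_zero h𝔓.1) h𝔓.1.isPrime)
            omega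
          · rw [h8, pow_one] at h2
            exact h3 h2
        have h9 : ((absNorm 𝔓 : ℕ) : ℝ) ^ (-s) ≤ nr K 2 𝔟 := by
          unfold nr
          rw [h2, Nat.cast_pow, ← Real.rpow_natCast, ← Real.rpow_mul (Nat.cast_nonneg _)]
          refine Real.rpow_le_rpow_of_exponent_le h2r ?_
          have h10 : (2 : ℝ) ≤ (𝔓.inertiaDeg (𝓞 K) : ℝ) := by exact_mod_cast h6
          nlinarith
        have := tm_nonneg (TM K M) s 𝔟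
        linarith
    refine (Finset.sum_le_card_nsmul _ _ _ h1).trans ?_
    rw [nsmul_eq_mul, ← Set.ncard_eq_toFinset_card _ (fin_over (M := M) h)]
    refine mul_le_mul_of_nonneg_right ?_ hpos
    exact_mod_cast ncard_over_le (M := M) h
  · rw [Fb_not_max h]
    exact mul_nonneg (Nat.cast_nonneg _) hpos

lemma le_Fb {s : ℝ} (hur : ∀ 𝔓 : Ideal (𝓞 M), 𝔓.IsMaximal → 𝔓.ramificationIdx (𝓞 K) = 1)
    (𝔟 : Ideal (𝓞 K)) : (Module.finrank K M : ℝ) * tm (TM K M) s 𝔟 ≤ Fb M s 𝔟 := by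
  by_cases h : 𝔟.IsMaximal
  · by_cases hT : 𝔟 ∈ TM K M
    · obtain ⟨𝔓₀, h0m, h0u, h0n⟩ := hT
      have := h.isPrime
      have := h0m.isPrime
      have h0l : 𝔓₀.LiesOver 𝔟 := ⟨h0u.symm⟩
      have h2' := two_le_absNorm (prime_of_isPrime (max_ne_zero h) h.isPrime)
      have hf0 : 𝔓₀.inertiaDeg (𝓞 K) = 1 := by
        have h2 := norm_over h h0m h0l
        rw [h0n] at h2
        have h3 : absNorm 𝔟 ^ 1 = absNorm 𝔟 ^ (𝔓₀.inertiaDeg (𝓞 K)) := by rw [pow_one]; exact h2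
        exact (Nat.pow_right_injective h2' h3).symm
      have hf : inertiaDegIn 𝔟 (𝓞 M) = 1 := by
        rw [inertiaDegIn_eq_inertiaDeg 𝔟 𝔓₀ Gal(M/K), hf0]
      have he : ramificationIdxIn 𝔟 (𝓞 M) = 1 := by
        rw [ramificationIdxIn_eq_ramificationIdx 𝔟 𝔓₀ Gal(M/K), hur 𝔓₀ h0m]
      have hc := card_over (M := M) h
      rw [hf, he, mul_one, mul_one] at hc
      rw [Fb_max h]
      have h1 : ∀ 𝔓 ∈ (fin_over (M := M) h).toFinset, ((absNorm 𝔓 : ℕ) : ℝ) ^ (-s) =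
          ((absNorm 𝔟 : ℕ) : ℝ) ^ (-s) := by
        intro 𝔓 h𝔓
        rw [Set.Finite.mem_toFinset, mem_over h] at h𝔓
        have hl : 𝔓.LiesOver 𝔟 := ⟨h𝔓.2.symm⟩
        have := h𝔓.1.isPrime
        have h4 : 𝔓.inertiaDeg (𝓞 K) = 1 := by
          rw [← inertiaDegIn_eq_inertiaDeg 𝔟 𝔓 Gal(M/K), hf]
        rw [norm_over h h𝔓.1 hl, h4, pow_one]
      rw [Finset.sum_congr rfl h1, Finset.sum_const, nsmul_eq_mul,
        ← Set.ncard_eq_toFinset_card _ (fin_over (M := M) h), hc]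
      unfold tm
      rw [if_pos ⟨h, ⟨𝔓₀, h0m, h0u, h0n⟩⟩]
    · have : tm (TM K M) s 𝔟 = 0 := by
        unfold tm
        rw [if_neg (fun h' => hT h'.2)]
      rw [this, mul_zero]
      exact tsum_nonneg fun 𝔞 => tm_nonneg _ _ _
  · have : tm (TM K M) s 𝔟 = 0 := by
      unfold tm
      rw [if_neg (fun h' => h h'.1)]
    rw [this, mul_zero]
    exact tsum_nonneg fun 𝔞 => tm_nonneg _ _ _

/-- the second part -/
theorem part2 : ∃ C : ℝ, ∀ s : ℝ, 1 < s → s ≤ 2 →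
    Real.log (1 / (s - 1)) - C ≤ (Module.finrank K M : ℝ) * H55.MU.PS K (TM K M) s ∧
      ((∀ 𝔓 : Ideal (𝓞 M), 𝔓.IsMaximal → 𝔓.ramificationIdx (𝓞 K) = 1) →
        (Module.finrank K M : ℝ) * H55.MU.PS K (TM K M) s ≤ Real.log (1 / (s - 1)) + C) := by
  obtain ⟨C, hC⟩ := re_one M
  have hn : 0 ≤ ∑' 𝔟, nr K 2 𝔟 := tsum_nonneg fun 𝔟 => nr_nonneg K 2 𝔟
  refine ⟨C + (Module.finrank K M : ℝ) * ∑' 𝔟, nr K 2 𝔟, fun s hs1 hs2 => ?_⟩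
  have h1 := hC s hs1 hs2
  rw [LA_pr_one hs1, abs_le] at h1
  have h2 := hasSum_Fb (K := K) (M := M) hs1
  have h3 := (tm_summable (TM K M) hs1).hasSum
  have h4 := (nr_summable K (σ := 2) (by norm_num)).hasSum
  constructor
  · have h5 := hasSum_le (Fb_le (M := M) hs1) h2 ((h3.add h4).mul_left (Module.finrank K M : ℝ))
    rw [PS_eq (TM K M)]
    rw [mul_add] at h5
    linarith [h1.1]
  · intro hur
    have h5 := hasSum_le (le_Fb (M := M) (s := s) hur) (h3.mul_left (Module.finrank K M : ℝ)) h2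
    rw [PS_eq (TM K M)]
    have h6 := mul_nonneg (Nat.cast_nonneg (α := ℝ) (Module.finrank K M)) hn
    linarith [h1.2]

end Pool.Agent.H78DN
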