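import Pool.Agent.H78DN.C
import Pool.Agent.H78DN.E
import Pool.Agent.N134.HS.Nvq

/-!
# DENS: densities of primes
-/

set_option autoImplicit false

open NumberField Complex Filter Topology Ideal

namespace Pool.Agent.H78DN

open Pool.Agent.Y773 Pool.Agent.Y772.DK Pool.Agent.Y772.NZ

variable {K : Type} [Field K] [NumberField K]

lemma chars (D : Subgroup (ClassGroup (𝓞 K)))
    (ψ : AddChar (Additive (ClassGroup (𝓞 K) ⧸ D)) ℂ) (hψ : ψ ≠ 1) :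
    ∃ C : ℝ, ∀ s : ℝ, 1 < s → s ≤ 2 → |(LA (pr (et D ψ)) (s : ℂ)).re| ≤ C := by
  have hc : ∀ 𝔞 : Ideal (𝓞 K), IsCoprime 𝔞 (⊤ : Ideal (𝓞 K)) := fun 𝔞 => by
    rw [← Ideal.one_eq_top]
    exact isCoprime_one_right
  obtain ⟨𝔞, h0, h1⟩ := exists_ne D ψ hψ
  obtain ⟨G, hG, hG1, h⟩ := Pool.Agent.N134.HS.ray_ne_zero (K := K) (𝔪 := ⊤) (η := et D ψ)
    top_ne_bot (fun 𝔟 hb => ⟨fun _ => hc 𝔟, fun _ => et_nonzero D ψ hb⟩)
    (fun x hx _ _ => et_ray D ψ hx) (et_norm D ψ) ⟨𝔞, h0, hc 𝔞, h1⟩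
  exact re_bounded (et D ψ) (et_norm D ψ) hG.continuousAt hG1 h

theorem main : Pool.Agent.H55.MU.S_DENS := by
  refine ⟨fun K _ _ D => part1 D (chars D), fun K M _ _ _ _ _ _ => part2 (K := K) (M := M)⟩

end Pool.Agent.H78DN
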